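import Pool.Agent.H2Sep.OS
import Pool.Agent.H2Sep.Transfer

/-!
# `H₂` is nonseparable

The set of 2-dimensional homogeneous Hilbertian operator spaces is not separable for the
completely bounded Banach-Mazur distance.
-/

namespace Pool.Agent.Results.MP_2aae63_an.H2Nonseparable

open Pool.Agent.H2Sep.OS

/-- The set of 2-dimensional homogeneous Hilbertian operator spaces is nonseparable for
`δ_cb = log d_cb`. -/
theorem result :
    ¬ Separable {E : OpSpace 2 | Hilbertian E ∧ Homogeneous E} :=
  Pool.Agent.H2Sep.OS.nonseparable

end Pool.Agent.Results.MP_2aae63_an.H2Nonseparable
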